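import Pool.Agent.H63.VC11.Qb11
import Pool.Agent.H63.VC12.Bas12

/-!
# Two-bridge links, colored `SU(n)` invariants: definitions for a generic `q`

The chain of twist regions `b 0, …, b m` (numbers of half twists, with signs); the strands of the twist
region `i` are parallel if `P i = true`, antiparallel otherwise. The invariants are sums over the
channels of the twist regions, with the eigenvalues of the half twists and the Racah matrices between
the channels of the adjacent twist regions.
-/

namespace Pool.Agent.S4

open Pool.Agent.H63.VC7 Pool.Agent.H63.VC8 Pool.Agent.H63.VC11 Pool.Agent.H63.VC12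

/-- The half twist of antiparallel strands on the channel `l`. -/
noncomputable def twA (q : ℂ) (n l : ℕ) : ℂ := (-1) ^ l * q ^ ((l : ℤ) * ((l : ℤ) + n - 1))

/-- The half twist of parallel strands on the channel `j`. -/
noncomputable def twS (q : ℂ) (j : ℕ) : ℂ := (-1) ^ j * q ^ ((j : ℤ) * ((j : ℤ) + 1))

/-- The quantum dimension of the channel `j` of parallel strands. -/
noncomputable def dimT (n N : ℕ) (q : ℂ) (j : ℕ) : ℂ :=
  br q (2 * (j : ℤ) + 1) * (∏ i ∈ Finset.range (n - 2),
      (br q ((N : ℤ) + j + i + 2) * br q ((N : ℤ) - j + i + 1))) /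
    ((∏ i ∈ Finset.range (n - 1), br q ((i : ℤ) + 1)) *
      ∏ i ∈ Finset.range (n - 2), br q ((i : ℤ) + 1))

/-- The slot factor of a channel of antiparallel strands. -/
noncomputable def pa (q : ℂ) (n t l : ℕ) : ℂ :=
  ∏ i ∈ Finset.range t, (br q ((n : ℤ) + l + i - 1) * br q ((l : ℤ) - i))

/-- The slot factor of a channel of parallel strands. -/
noncomputable def ps (q : ℂ) (a : ℤ) (t j : ℕ) : ℂ :=
  ∏ i ∈ Finset.range t, (br q (a + j + i) * br q (a - j - 1 + i))

/-- The Racah matrix between the channels of parallel and of antiparallel strands; `a = N + n` or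
`a = -N`, the two expressions are equal. -/
noncomputable def six (n : ℕ) (q : ℂ) (N : ℕ) (a : ℤ) (j l : ℕ) : ℂ :=
  (∏ i ∈ Finset.range l, (br q (a + i) / br q ((n : ℤ) - a + i))) *
    ∑ t ∈ Finset.range (N + 1), (-1) ^ t * (pa q n t l * ps q a t j) /
      ∏ i ∈ Finset.range t, (br q ((i : ℤ) + 1) * br q ((n : ℤ) + i - 1) * br q (a + i) ^ 2)

/-- The admissible values of the parameter of `six`. -/
def IsA (n N : ℕ) (a : ℤ) : Prop := a = (N : ℤ) + n ∨ a = -(N : ℤ)

/-- The transform from the channels of parallel strands to the channels of antiparallel strands. -/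
noncomputable def Ro (n : ℕ) (q : ℂ) (N : ℕ) (a : ℤ) (f : ℕ → ℂ) (l : ℕ) : ℂ :=
  ∑ j ∈ Finset.range (N + 1), dimT n N q j / dimS n N q * six n q N a j l * f j

/-- The transform from the channels of antiparallel strands to the channels of parallel strands. -/
noncomputable def Rt (n : ℕ) (q : ℂ) (N : ℕ) (a : ℤ) (f : ℕ → ℂ) (j : ℕ) : ℂ :=
  ∑ l ∈ Finset.range (N + 1), dimA n q l / dimS n N q * six n q N a j l * f l

/-- A basis of the functions of the channels of parallel strands. -/
noncomputable def LE (q : ℂ) (k j : ℕ) : ℂ := qb q j k * qb q (j + k) k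

/-- Its transform. -/
noncomputable def wk (q : ℂ) (n N k l : ℕ) : ℂ :=
  if l ≤ k then (-1) ^ l * qb q (N - l) (k - l) * qb q (N + n + k - 1) (N - l) else 0

/-- The framing factor of a half twist. -/
noncomputable def ka (q : ℂ) (n N : ℕ) : ℂ := (-1) ^ N * q ^ ((N : ℤ) * ((N : ℤ) + n))

/-- The kernel between the channels of two adjacent twist regions. -/
noncomputable def ker (n : ℕ) (q : ℂ) (N : ℕ) (a : ℤ) : Bool → Bool → ℕ → ℕ → ℂ
  | false, false, X, Y => sixn n q N X Y
  | false, true, X, Y => six n q N a Y X
  | true, false, X, Y => six n q N a X Y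
  | true, true, _, _ => 0

/-- The weight of the channel `X` of a twist region with `b` half twists. -/
noncomputable def vw (n : ℕ) (q : ℂ) (N : ℕ) : Bool → ℤ → ℕ → ℂ
  | false, b, X => dimA n q X / dimS n N q * twA q n X ^ b
  | true, b, X => dimT n N q X / dimS n N q * twS q X ^ b

/-- The function of a chain, on the channels of the twist region to the left of it. -/
noncomputable def mf (n : ℕ) (q : ℂ) (N : ℕ) (a : ℤ) : List (Bool × ℤ) → Bool → ℕ → ℂ
  | [], _, _ => 1
  | x :: l, P, X => ∑ Y ∈ Finset.range (N + 1),
      ker n q N a P x.1 X Y * (vw n q N x.1 x.2 Y * mf n q N a l x.1 Y)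

/-- The sum over the channels. -/
noncomputable def mix {m : ℕ} (n : ℕ) (q : ℂ) (N : ℕ) (a : ℤ) (P : Fin (m + 1) → Bool)
    (b : Fin (m + 1) → ℤ) : ℂ :=
  ∑ X ∈ Fintype.piFinset (fun _ : Fin (m + 1) => Finset.range (N + 1)),
    (∏ i, vw n q N (P i) (b i) (X i)) *
      ∏ j : Fin m, ker n q N a (P j.castSucc) (P j.succ) (X j.castSucc) (X j.succ)

/-- The sign of the first twist region if its strands are parallel, otherwise `0`. -/
def hs : List (Bool × ℤ) → ℤ
  | (true, c) :: _ => c.sign
  | _ => 0

/-- The numbers of full twists of the annuli which replace a chain; `s` is the sign of the twist region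
to the left of it if the strands of that are parallel, otherwise `0`. -/
def exr : ℤ → List (Bool × ℤ) → List ℤ
  | _, [] => []
  | s, (false, b) :: l => (b - s - hs l) / 2 :: exr 0 l
  | _, (true, b) :: l => List.replicate (b.natAbs - 1) (-b.sign) ++ exr b.sign l

/-- The condition that the chain is replaced by annuli: the twist regions with antiparallel strands
have the right parity, and no two adjacent twist regions have parallel strands. -/
def OkL : ℤ → List (Bool × ℤ) → Prop
  | _, [] => True
  | s, (false, b) :: l => (2 ∣ b - s - hs l) ∧ OkL 0 l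
  | _, (true, b) :: l => b ≠ 0 ∧ (∀ c l', l ≠ (true, c) :: l') ∧ OkL b.sign l

/-- The function of a chain of annuli with a function at its end. -/
noncomputable def hfg (q : ℂ) (n N : ℕ) : List ℤ → (ℕ → ℂ) → ℕ → ℂ
  | [], f, X => f X
  | a :: l, f, X => Ph q n N (fun Y => tt q n Y ^ a * hfg q n N l f Y) X

/-- The continued fraction `b 0 - 1 / (b 1 - 1 / (b 2 - ...))`. -/
def mcf : List ℤ → ℚ
  | [] => 0
  | b :: l => b - (mcf l)⁻¹

end Pool.Agent.S4
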