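import Pool.Agent.H63.VC7.Defs
import Pool.Agent.S4.Defs

/-!
# Two-bridge links, colored `SU(n)` invariants: definitions at the roots of unity

`M = N + g`, `h = min g (n - g)`.
-/

namespace Pool.Agent.S4

open Pool.Agent.H63.VC hiding ext
open Pool.Agent.H63.VC3 Pool.Agent.H63.VC7 Complex

variable {m : ℕ}

/-- The centered product of `d` factors `2 cos`. -/
noncomputable def Wd (M d : ℕ) (v : ℂ) : ℂ :=
  ∏ j ∈ Finset.range d, (2 * cos (Real.pi * (v + ((j : ℂ) + 1 / 2 - d / 2) / M)))

/-- The number of the factors in the denominator of a slot, for parallel (`true`) and antiparallel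
(`false`) strands. -/
def dd (n h : ℕ) (P : Bool) : ℕ := if P then 2 * (n - h) - 2 else n - 2

/-- The index of the lattice. -/
def nn (n : ℕ) (P : Bool) : ℕ := if P then 2 else n

/-- The factor of a slot, a trigonometric polynomial. -/
noncomputable def q4 (M d t : ℕ) (v : ℂ) : ℂ := 1 / M * ∏ i ∈ Finset.range t,
  (4 * (cos (Real.pi * (v + ((i : ℂ) + (d + 1) / 2) / M)) *
    cos (Real.pi * (v - ((i : ℂ) + (d + 1) / 2) / M))))

/-- The factor of a node without the slots; `s` is the number of the adjacent nodes of the other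
type. -/
noncomputable def pre (n h M : ℕ) (P : Bool) (s : ℕ) (v : ℂ) : ℂ :=
  if P then Wd M (2 * h - 2) v * Wd M (2 * (n - h) - 2) v
  else Wd M (n - 2) v ^ 2 * Wd M (n - 2 * h) v ^ s

/-- The function whose derivatives are summed at a node. -/
noncomputable def NT4 (r : ℝ) (n h M : ℕ) (P : Bool) (s : ℕ) (A : Finset (Fin m)) (k : Fin m → ℕ)
    (v : ℂ) : ℂ :=
  exp (2 * Real.pi * I * r * M * v ^ 2) * (2 * sin (2 * Real.pi * v)) * pre n h M P s v *
    ∏ j ∈ A, q4 M (dd n h P) (M + 1 - n - k j) v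

/-- The factor of a node. -/
noncomputable def DG4 (r : ℝ) (n h M : ℕ) (P : Bool) (s : ℕ) (A : Finset (Fin m))
    (k : Fin m → ℕ) : ℂ :=
  ∑ X ∈ Finset.range (M + 2 - nn n P),
    deriv (NT4 r n h M P s A k) ((vl (nn n P) M X : ℝ) : ℂ)

/-- The weight of an edge; `e` is true for the edges between nodes of different types. -/
noncomputable def w4 (n h : ℕ) (e : Bool) (M k : ℕ) : ℝ :=
  S M k * S M (k + n - 2) * S M (k + h - 1) * S M (k + (if e then h else n - h) - 1)

/-- The edges at a node of the path. -/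
def ie (i : Fin (m + 1)) : Finset (Fin m) := inc (Fin.castSucc (n := m)) Fin.succ i

/-- The type of an edge. -/
def et (P : Fin (m + 1) → Bool) (j : Fin m) : Bool := P j.castSucc || P j.succ

/-- The number of the adjacent nodes of the other type. -/
def sn (P : Fin (m + 1) → Bool) (i : Fin (m + 1)) : ℕ := ((ie i).filter fun j => et P j).card

/-- The invariant at the root of unity, up to simple factors. -/
noncomputable def JG4 (P : Fin (m + 1) → Bool) (r : Fin (m + 1) → ℝ) (n h M : ℕ) : ℂ :=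
  ∑ k ∈ Fintype.piFinset (fun _ : Fin m => Finset.range (M + 2 - n)),
    (∏ j, (w4 n h (et P j) M (k j) : ℂ)) * ∏ i, DG4 (r i) n h M (P i) (sn P i) (ie i) k

/-- The constant of a node with `b` half twists. -/
noncomputable def cst (n g M : ℕ) (P : Bool) (b : ℤ) : ℂ :=
  -(-1) ^ (nn n P + g) / (4 * Real.pi * (Dg n g M : ℂ)) *
    exp (b * (Real.pi * I * (bt (nn n P) - M / 4 - (bt (nn n P) : ℂ) ^ 2 / M)))

/-- The primitive root. -/
noncomputable def q0 (M : ℕ) : ℂ := exp (Real.pi * I / (M : ℂ))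

/-! ### The sums over the main channels -/

/-- The weight of a channel, restricted to the channels `X ≤ L` for antiparallel strands. -/
noncomputable def vwc (n : ℕ) (q : ℂ) (N L : ℕ) (P : Bool) (b : ℤ) (X : ℕ) : ℂ :=
  if P = false ∧ L < X then 0 else vw n q N P b X

/-- The function of a chain, with restricted channels. -/
noncomputable def mfc (n : ℕ) (q : ℂ) (N L : ℕ) (a : ℤ) : List (Bool × ℤ) → Bool → ℕ → ℂ
  | [], _, _ => 1
  | x :: l, P, X => ∑ Y ∈ Finset.range (N + 1),
      ker n q N a P x.1 X Y * (vwc n q N L x.1 x.2 Y * mfc n q N L a l x.1 Y)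

/-- The sum over the restricted channels. -/
noncomputable def mixc (n : ℕ) (q : ℂ) (N L : ℕ) (a : ℤ) (P : Fin (m + 1) → Bool)
    (b : Fin (m + 1) → ℤ) : ℂ :=
  ∑ X ∈ Fintype.piFinset (fun _ : Fin (m + 1) => Finset.range (N + 1)),
    (∏ i, vwc n q N L (P i) (b i) (X i)) *
      ∏ j : Fin m, ker n q N a (P j.castSucc) (P j.succ) (X j.castSucc) (X j.succ)

/-- The weight of an edge for a generic `q`. -/
noncomputable def E4 (n N : ℕ) (a : ℤ) (q : ℂ) (e : Bool) (t : ℕ) : ℂ :=
  if e then (-1) ^ t / ∏ i ∈ Finset.range t,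
    (br q ((i : ℤ) + 1) * br q ((n : ℤ) + i - 1) * br q (a + i) ^ 2)
  else (-1) ^ t / ∏ i ∈ Finset.range t, (br q ((i : ℤ) + 1) * br q ((n : ℤ) + i - 1) *
    (br q ((n : ℤ) + N + i) * br q ((N : ℤ) - i)))

/-- The factor of a slot for a generic `q`. -/
noncomputable def sl4 (n : ℕ) (a : ℤ) (q : ℂ) (P : Bool) (t X : ℕ) : ℂ :=
  if P then ps q a t X else pa q n t X

/-- The factor of a node of antiparallel strands for an adjacent node of parallel strands. -/
noncomputable def Ca (n : ℕ) (a : ℤ) (q : ℂ) (X : ℕ) : ℂ :=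
  ∏ i ∈ Finset.range X, (br q (a + i) / br q ((n : ℤ) - a + i))

/-- The factor of a node for a generic `q`, `L + 1` channels of antiparallel strands. -/
noncomputable def NF4 (n N L : ℕ) (a : ℤ) (q : ℂ) (P : Bool) (b : ℤ) (s : ℕ) (A : Finset (Fin m))
    (t : Fin m → ℕ) : ℂ :=
  ∑ X ∈ Finset.range ((if P then N else L) + 1), vw n q N P b X *
    ((if P then 1 else Ca n a q X ^ s) * ∏ j ∈ A, sl4 n a q P (t j) X)

/-! ### Families of functions of the channel with bounded coefficients -/

/-- `F q X` is a combination of the slot factors with coefficients which are bounded near `x`. -/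
def RA (n N : ℕ) (x : ℂ) (F : ℂ → ℕ → ℂ) : Prop :=
  ∃ c : ℂ → ℕ → ℂ, (∀ t, Asymptotics.IsBigO (nhdsWithin x {x}ᶜ) (fun q => c q t)
      (fun _ => (1 : ℂ))) ∧
    ∀ᶠ q in nhdsWithin x {x}ᶜ, ∀ X ≤ N, F q X = ∑ t ∈ Finset.range (N + 1), c q t * pa q n t X

end Pool.Agent.S4
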